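import Mathlib

set_option autoImplicit false

/-!
Low degree vertices of connected 3-edge-critical graphs (domination): combinatorial core.
-/

namespace Pool.Agent.Q216.EC

open Finset

variable {V : Type*}

/-- `v` covers `z`: `z` lies in the closed neighbourhood of `v`. -/
def Cov (G : SimpleGraph V) (v z : V) : Prop := z = v ∨ G.Adj v z

/-- The two consequences of 3-edge-criticality which are used. -/
structure Hyp (G : SimpleGraph V) : Prop where
  two : ∀ a b, ∃ z, ¬ Cov G a z ∧ ¬ Cov G b z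
  crit : ∀ u v, u ≠ v → ¬ G.Adj u v →
    (∃ w, ¬ Cov G w v ∧ ∀ z, z ≠ v → Cov G u z ∨ Cov G w z) ∨
    (∃ w, ¬ Cov G w u ∧ ∀ z, z ≠ u → Cov G v z ∨ Cov G w z)

variable [Fintype V] [DecidableEq V] (G : SimpleGraph V) [DecidableRel G.Adj]

theorem cov_symm {a b : V} (h : Cov G a b) : Cov G b a := by
  rcases h with h | h
  · exact Or.inl h.symm
  · exact Or.inr h.symm

/-- `x` is of type A with respect to `u`. -/
def TA (u x : V) : Prop := ∃ w, ¬ Cov G w x ∧ ∀ z, z ≠ x → Cov G u z ∨ Cov G w z

/-- `x` is of type B with respect to `u`. -/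
def TB (u x : V) : Prop := ∃ w, ¬ Cov G w u ∧ ∀ z, z ≠ u → Cov G x z ∨ Cov G w z

theorem bad_card {r : ℕ} {u s : V} (hus : ¬ Cov G u s) (hs : G.degree s ≤ r)
    (B : Finset V) (hB : ∀ x ∈ B, ¬ Cov G u x ∧ ¬ Cov G s x ∧ TA G u x) :
    B.card ≤ r + 1 := by
  classical
  have h1 : ∀ x ∈ B, ∃ w, (¬ Cov G w x ∧ ∀ z, z ≠ x → Cov G u z ∨ Cov G w z) :=
    fun x hx => (hB x hx).2.2
  choose! w hw1 hw2 using h1
  have hmaps : ∀ x ∈ B, w x ∈ insert s (G.neighborFinset s) := by
    intro x hx
    have hsx : s ≠ x := by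
      intro h
      exact (hB x hx).2.1 (Or.inl h.symm)
    rcases hw2 x hx s hsx with h | h
    · exact absurd h hus
    · rcases h with h | h
      · rw [← h]; exact mem_insert_self _ _
      · apply mem_insert_of_mem
        rw [SimpleGraph.mem_neighborFinset]
        exact h.symm
  have hinj : Set.InjOn w (B : Set V) := by
    intro x hx y hy hxy
    by_contra hne
    have hyx : y ≠ x := fun h => hne h.symm
    rcases hw2 x hx y hyx with h | h
    · exact (hB y hy).1 h
    · rw [hxy] at h
      exact hw1 y hy h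
  calc B.card ≤ (insert s (G.neighborFinset s)).card := card_le_card_of_injOn w hmaps hinj
    _ ≤ (G.neighborFinset s).card + 1 := card_insert_le _ _
    _ ≤ r + 1 := by rw [SimpleGraph.card_neighborFinset_eq_degree]; omega

theorem exX {r : ℕ} (H : Hyp G) (S : Finset V) (hS : ∀ s ∈ S, G.degree s ≤ r)
    (hc : S.card ≤ r + 3) (hn : 2 * (r + 3) * (r + 1) + 2 ≤ Fintype.card V) :
    ∃ X : Finset V, 2 ≤ X.card ∧ (∀ x ∈ X, ∀ s ∈ S, ¬ Cov G s x) ∧
      (∀ x ∈ X, ∀ u ∈ S, (∃ s ∈ S, ¬ Cov G u s) → TB G u x) := by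
  classical
  set N1 : Finset V := S.biUnion (fun s => insert s (G.neighborFinset s)) with hN1
  have hN1c : N1.card ≤ S.card * (r + 1) := by
    refine card_biUnion_le_card_mul _ _ _ ?_
    intro s hs
    calc (insert s (G.neighborFinset s)).card ≤ (G.neighborFinset s).card + 1 := card_insert_le _ _
      _ ≤ r + 1 := by rw [SimpleGraph.card_neighborFinset_eq_degree]; have := hS s hs; omega
  set U : Finset V := S.filter (fun u => ∃ s ∈ S, ¬ Cov G u s) with hU
  set N2 : Finset V := U.biUnion (fun u => (univ \ N1).filter (fun x => TA G u x)) with hN2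
  have hcov1 : ∀ x, x ∉ N1 → ∀ s ∈ S, ¬ Cov G s x := by
    intro x hx s hs hcov
    apply hx
    rw [hN1, mem_biUnion]
    refine ⟨s, hs, ?_⟩
    rcases hcov with h | h
    · rw [h]; exact mem_insert_self _ _
    · exact mem_insert_of_mem ((SimpleGraph.mem_neighborFinset _ _ _).2 h)
  have hN2c : N2.card ≤ U.card * (r + 1) := by
    refine card_biUnion_le_card_mul _ _ _ ?_
    intro u hu
    rw [hU, mem_filter] at hu
    obtain ⟨huS, s, hs, hus⟩ := hu
    refine bad_card G hus (hS s hs) _ ?_
    intro x hx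
    rw [mem_filter, mem_sdiff] at hx
    exact ⟨hcov1 x hx.1.2 u huS, hcov1 x hx.1.2 s hs, hx.2⟩
  have hUS : U.card ≤ S.card := card_le_card (filter_subset _ _)
  refine ⟨univ \ (N1 ∪ N2), ?_, ?_, ?_⟩
  · rw [card_sdiff_of_subset (subset_univ _), card_univ]
    have h1 : (N1 ∪ N2).card ≤ N1.card + N2.card := card_union_le _ _
    have h2 : S.card * (r + 1) ≤ (r + 3) * (r + 1) := Nat.mul_le_mul_right _ hc
    have h3 : U.card * (r + 1) ≤ (r + 3) * (r + 1) :=
      Nat.mul_le_mul_right _ (hUS.trans hc)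
    have h4 : 2 * (r + 3) * (r + 1) = (r + 3) * (r + 1) + (r + 3) * (r + 1) := by ring
    omega
  · intro x hx
    rw [mem_sdiff, mem_union, not_or] at hx
    exact hcov1 x hx.2.1
  · intro x hx u hu hsu
    rw [mem_sdiff, mem_union, not_or] at hx
    have hux : ¬ Cov G u x := hcov1 x hx.2.1 u hu
    have hne : u ≠ x := fun h => hux (Or.inl h.symm)
    have hadj : ¬ G.Adj u x := fun h => hux (Or.inr h)
    rcases H.crit u x hne hadj with hA | hB
    · exfalso
      apply hx.2.2
      rw [hN2, mem_biUnion]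
      refine ⟨u, ?_, ?_⟩
      · rw [hU, mem_filter]; exact ⟨hu, hsu⟩
      · rw [mem_filter, mem_sdiff]
        exact ⟨⟨mem_univ _, hx.2.1⟩, hA⟩
    · exact hB

/-- For a fixed generic `x`, a choice of the partners `w u`. -/
theorem partners {S : Finset V} {x : V} (hx : ∀ s ∈ S, ¬ Cov G s x)
    (hall : ∀ u ∈ S, TB G u x) :
    ∃ w : V → V, (∀ u ∈ S, ¬ Cov G (w u) u) ∧ (∀ u ∈ S, ∀ s ∈ S, s ≠ u → Cov G (w u) s) ∧
      Set.InjOn w (S : Set V) := by
  classical
  choose! w hw1 hw2 using hall
  have h2 : ∀ u ∈ S, ∀ s ∈ S, s ≠ u → Cov G (w u) s := by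
    intro u hu s hs hsu
    rcases hw2 u hu s hsu with h | h
    · exact absurd (cov_symm G h) (hx s hs)
    · exact h
  refine ⟨w, hw1, h2, ?_⟩
  intro u hu v hv huv
  by_contra hne
  have := h2 v hv u hu hne
  rw [← huv] at this
  exact hw1 u hu this

theorem image_sub {S : Finset V} {w : V → V}
    (h2 : ∀ u ∈ S, ∀ s ∈ S, s ≠ u → Cov G (w u) s) (s : V) (hs : s ∈ S) :
    ((S.erase s).image w).erase s ⊆ G.neighborFinset s := by
  intro z hz
  rw [mem_erase, mem_image] at hz
  obtain ⟨hzs, u, hu, huz⟩ := hz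
  rw [mem_erase] at hu
  have := h2 u hu.2 s hs (fun h => hu.1 h.symm)
  rw [SimpleGraph.mem_neighborFinset]
  rcases this with h | h
  · exact absurd (h.trans huz).symm (fun h' => hzs h')
  · rw [huz] at h; exact h.symm

/-- Low degree sets have at most `r + 2` elements. -/
theorem card_le {r : ℕ} (H : Hyp G) (hn : 2 * (r + 3) * (r + 1) + 2 ≤ Fintype.card V)
    (S : Finset V) (hS : ∀ s ∈ S, G.degree s ≤ r) : S.card ≤ r + 2 := by
  classical
  by_contra hcon
  push Not at hcon
  obtain ⟨S', hS'S, hS'c⟩ := exists_subset_card_eq (s := S) (n := r + 3) (by omega)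
  have hS' : ∀ s ∈ S', G.degree s ≤ r := fun s hs => hS s (hS'S hs)
  obtain ⟨X, hX2, hX1, hXB⟩ := exX G H S' hS' hS'c.le hn
  obtain ⟨x, hx⟩ : X.Nonempty := by
    rw [← card_pos]; omega
  have hnon : ∀ u ∈ S', ∃ s ∈ S', ¬ Cov G u s := by
    intro u hu
    by_contra h
    push Not at h
    have hsub : S'.erase u ⊆ G.neighborFinset u := by
      intro z hz
      rw [mem_erase] at hz
      rw [SimpleGraph.mem_neighborFinset]
      rcases h z hz.2 with h' | h'
      · exact absurd h' hz.1
      · exact h'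
    have := card_le_card hsub
    rw [card_erase_of_mem hu, SimpleGraph.card_neighborFinset_eq_degree] at this
    have := hS' u hu
    omega
  obtain ⟨w, hw1, hw2, hinj⟩ := partners G (S := S') (x := x) (fun s hs => hX1 x hx s hs)
    (fun u hu => hXB x hx u hu (hnon u hu))
  obtain ⟨s, hs⟩ : S'.Nonempty := by rw [← card_pos]; omega
  have h1 := card_le_card (image_sub G hw2 s hs)
  rw [SimpleGraph.card_neighborFinset_eq_degree] at h1
  have h3 : ((S'.erase s).image w).card = r + 2 := by
    rw [card_image_of_injOn (hinj.mono (by intro z hz; exact mem_of_mem_erase (by exact_mod_cast hz))),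
      card_erase_of_mem hs]
    omega
  have h4 := pred_card_le_card_erase (s := (S'.erase s).image w) (a := s)
  have := hS' s hs
  omega

/-- A nonempty set closed under adjacency is everything when the graph is connected. -/
theorem closed_eq_univ (hconn : G.Connected) {S : Finset V} (hne : S.Nonempty)
    (hcl : ∀ s ∈ S, G.neighborFinset s ⊆ S) : S = univ := by
  classical
  obtain ⟨a, ha⟩ := hne
  have key : ∀ (u v : V) (_ : G.Walk u v), u ∈ S → v ∈ S := by
    intro u v p
    induction p with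
    | nil => exact id
    | cons h p ih =>
      intro hu
      exact ih (hcl _ hu ((SimpleGraph.mem_neighborFinset _ _ _).2 h))
  rw [eq_univ_iff_forall]
  intro z
  obtain ⟨p⟩ := hconn.preconnected a z
  exact key a z p ha

end Pool.Agent.Q216.EC
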