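import Pool.Agent.Q216.EC.Main

set_option autoImplicit false

/-!
Low degree vertices of connected 3-edge-critical graphs (domination): last case and conclusion.
-/

namespace Pool.Agent.Q216.EC

open Finset

variable {V : Type*} [Fintype V] [DecidableEq V] (G : SimpleGraph V) [DecidableRel G.Adj]

/-- If every element of `S` has exactly one non-neighbour in `S`, then `|S|` is even. -/
theorem even_of_unique {S : Finset V}
    (h : ∀ s ∈ S, ∃ t ∈ S, ¬ Cov G s t ∧ ∀ t' ∈ S, ¬ Cov G s t' → t' = t) : Even S.card := by
  classical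
  choose! f hf1 hf2 hf3 using h
  have hff : ∀ s ∈ S, f (f s) = s := by
    intro s hs
    exact (hf3 (f s) (hf1 s hs) s hs (fun h' => hf2 s hs (cov_symm G h'))).symm
  have hsum : ∑ _s ∈ S, (1 : ZMod 2) = 0 := by
    apply sum_involution (fun s _ => f s)
    · intro s hs; decide
    · intro s hs _ h'
      have := hf2 s hs
      rw [h'] at this
      exact this (Or.inl rfl)
    · intro s hs; exact hf1 s hs
    · intro s hs; exact hff s hs
  rw [sum_const, nsmul_eq_mul, mul_one] at hsum
  rwa [ZMod.natCast_eq_zero_iff, ← even_iff_two_dvd] at hsum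

/-- Case `C = ∅`: `|S| = r + 1`, every element of `S` has a non-neighbour in `S`. -/
theorem case_all {r : ℕ} (hr4 : 4 ≤ r) (H : Hyp G)
    (hn : 2 * (r + 3) * (r + 1) + 2 ≤ Fintype.card V)
    (S : Finset V) (hSd : ∀ s ∈ S, G.degree s ≤ r) (hSc : S.card = r + 1)
    (hnon : ∀ u ∈ S, ∃ s ∈ S, ¬ Cov G u s) :
    ∀ s ∈ S, ∃ t ∈ S, ¬ Cov G s t ∧ ∀ t' ∈ S, ¬ Cov G s t' → t' = t := by
  classical
  obtain ⟨X, hX2, hX1, hXB⟩ := exX G H S hSd (by omega) hn
  obtain ⟨x, hx⟩ : X.Nonempty := by rw [← card_pos]; omega
  obtain ⟨w, hw1, hw2, hinj⟩ := partners G (S := S) (x := x) (fun s hs => hX1 x hx s hs)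
    (fun u hu => hXB x hx u hu (hnon u hu))
  set V1 : Finset V := S.filter (fun u => w u ∈ S) with hV1
  set V2 : Finset V := S.filter (fun u => w u ∉ S) with hV2
  set P : Finset V := V1.image w with hP
  set Q : Finset V := S \ P with hQ
  have hPS : P ⊆ S := by
    intro p hp
    rw [hP, mem_image] at hp
    obtain ⟨u, hu, rfl⟩ := hp
    rw [hV1, mem_filter] at hu
    exact hu.2
  have hPc : P.card = V1.card := by
    rw [hP, card_image_of_injOn]
    exact hinj.mono (by intro z hz; exact (filter_subset _ _) hz)
  have hV12 : V1.card + V2.card = S.card := by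
    rw [hV1, hV2]; exact card_filter_add_card_filter_not _
  have hQc : Q.card + P.card = S.card := by
    rw [hQ]; exact card_sdiff_add_card_eq_card hPS
  have hV2Q : V2.card = Q.card := by omega
  -- elements of P
  have hPel : ∀ p ∈ P, ∃ v ∈ S, v ≠ p ∧ w v = p ∧ (∀ s ∈ S, s ≠ v → Cov G p s) ∧ ¬ Cov G p v := by
    intro p hp
    rw [hP, mem_image] at hp
    obtain ⟨v, hv, hvp⟩ := hp
    rw [hV1, mem_filter] at hv
    refine ⟨v, hv.1, ?_, hvp, ?_, ?_⟩
    · intro h
      have := hw1 v hv.1
      rw [hvp, ← h] at this
      exact this (Or.inl rfl)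
    · intro s hs hsv
      have := hw2 v hv.1 s hs hsv
      rwa [hvp] at this
    · have := hw1 v hv.1
      rwa [hvp] at this
  have hPdeg : ∀ p ∈ P, (V2.erase p).card ≤ 1 := by
    intro p hp
    obtain ⟨v, hvS, hvp, hwv, hcov, hncov⟩ := hPel p hp
    have hpS := hPS hp
    have hsub : ((S.erase p).erase v) ∪ (V2.erase p).image w ⊆ G.neighborFinset p := by
      intro t ht
      rw [SimpleGraph.mem_neighborFinset]
      rw [mem_union] at ht
      rcases ht with ht | ht
      · rw [mem_erase, mem_erase] at ht
        rcases hcov t ht.2.2 ht.1 with h | h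
        · exact absurd h ht.2.1
        · exact h
      · rw [mem_image] at ht
        obtain ⟨u, hu, hut⟩ := ht
        rw [mem_erase, hV2, mem_filter] at hu
        have := hw2 u hu.2.1 p hpS (fun h => hu.1 h.symm)
        rcases this with h | h
        · exfalso; rw [← h] at hu; exact hu.2.2 hpS
        · rw [hut] at h; exact h.symm
    have hdisj : Disjoint ((S.erase p).erase v) ((V2.erase p).image w) := by
      rw [disjoint_left]
      intro t ht ht'
      rw [mem_image] at ht'
      obtain ⟨u, hu, hut⟩ := ht'
      rw [mem_erase, hV2, mem_filter] at hu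
      apply hu.2.2
      rw [hut]
      exact mem_of_mem_erase (mem_of_mem_erase ht)
    have hc := card_le_card hsub
    rw [card_union_of_disjoint hdisj, card_erase_of_mem, card_erase_of_mem hpS,
      card_image_of_injOn, SimpleGraph.card_neighborFinset_eq_degree] at hc
    · have := hSd p hpS
      omega
    · exact hinj.mono (by
        intro z hz
        have hz' : z ∈ V2.erase p := by exact_mod_cast hz
        exact (filter_subset _ _) (mem_of_mem_erase hz'))
    · rw [mem_erase]; exact ⟨hvp, hvS⟩
  by_cases hPe : P = ∅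
  · -- `S` independent
    exfalso
    have hwS : ∀ u ∈ S, w u ∉ S := by
      intro u hu hwu
      have : w u ∈ P := by
        rw [hP]; exact mem_image_of_mem _ (by rw [hV1, mem_filter]; exact ⟨hu, hwu⟩)
      rw [hPe] at this
      exact notMem_empty _ this
    have hN : ∀ s ∈ S, (S.erase s).image w = G.neighborFinset s := by
      intro s hs
      have h1 := image_sub G hw2 s hs
      have hns : s ∉ (S.erase s).image w := by
        intro h
        rw [mem_image] at h
        obtain ⟨u, hu, hus⟩ := h
        exact hwS u (mem_of_mem_erase hu) (by rw [hus]; exact hs)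
      rw [erase_eq_of_notMem hns] at h1
      apply eq_of_subset_of_card_le h1
      rw [card_image_erase hinj hs, SimpleGraph.card_neighborFinset_eq_degree]
      have := hSd s hs
      omega
    have hNout : ∀ s ∈ S, ∀ z, G.Adj s z → ∃ u ∈ S, u ≠ s ∧ w u = z := by
      intro s hs z hz
      have : z ∈ G.neighborFinset s := (SimpleGraph.mem_neighborFinset _ _ _).2 hz
      rw [← hN s hs, mem_image] at this
      obtain ⟨u, hu, huz⟩ := this
      exact ⟨u, mem_of_mem_erase hu, ne_of_mem_erase hu, huz⟩
    have hind : ∀ s ∈ S, ∀ t ∈ S, ¬ G.Adj s t := by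
      intro s hs t ht h
      obtain ⟨u, hu, _, hut⟩ := hNout s hs t h
      exact hwS u hu (by rw [hut]; exact ht)
    -- the key consequence of criticality inside S
    have hkey : ∀ u ∈ S, ∀ v ∈ S, u ≠ v → ∀ w', ¬ Cov G w' v →
        (∀ z, z ≠ v → Cov G u z ∨ Cov G w' z) → w' = w v := by
      intro u hu v hv huv w' hw'1 hw'2
      have h1 : ∀ s ∈ S, s ≠ u → s ≠ v → Cov G w' s := by
        intro s hs hsu hsv
        rcases hw'2 s hsv with h | h
        · exfalso
          rcases h with h | h
          · exact hsu h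
          · exact hind u hu s hs h
        · exact h
      have hc3 : 1 < ((S.erase u).erase v).card := by
        have h1 := pred_card_le_card_erase (s := S) (a := u)
        have h2 := pred_card_le_card_erase (s := S.erase u) (a := v)
        omega
      obtain ⟨s, hs, s', hs', hss'⟩ := one_lt_card.1 hc3
      rw [mem_erase, mem_erase] at hs hs'
      have hw'S : w' ∉ S := by
        intro hw'S
        have e1 := h1 s hs.2.2 hs.2.1 hs.1
        have e2 := h1 s' hs'.2.2 hs'.2.1 hs'.1
        rcases e1 with e1 | e1
        · rcases e2 with e2 | e2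
          · exact hss' (e1.trans e2.symm)
          · exact hind w' hw'S s' hs'.2.2 e2
        · exact hind w' hw'S s hs.2.2 e1
      have e1 : G.Adj s w' := by
        rcases h1 s hs.2.2 hs.2.1 hs.1 with h | h
        · exfalso; rw [← h] at hw'S; exact hw'S hs.2.2
        · exact h.symm
      obtain ⟨t, ht, hts, hwt⟩ := hNout s hs.2.2 w' e1
      by_cases htv : t = v
      · rw [← htv, hwt]
      · exfalso
        apply hw'1
        rw [← hwt]
        exact hw2 t ht v hv (fun h => htv h.symm)
    have hdom : ∀ u ∈ S, ∀ v ∈ S, u ≠ v →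
        (∀ z, z ≠ v → Cov G u z ∨ Cov G (w v) z) ∨ (∀ z, z ≠ u → Cov G v z ∨ Cov G (w u) z) := by
      intro u hu v hv huv
      rcases H.crit u v huv (hind u hu v hv) with ⟨w', h1, h2⟩ | ⟨w', h1, h2⟩
      · left
        have := hkey u hu v hv huv w' h1 h2
        rw [← this]; exact h2
      · right
        have := hkey v hv u hu huv.symm w' h1 h2
        rw [← this]; exact h2
    have hnuw : ∀ u ∈ S, ¬ Cov G u (w u) := fun u hu h => hw1 u hu (cov_symm G h)
    have hwne : ∀ u ∈ S, ∀ v ∈ S, w u ≠ v := by
      intro u hu v hv h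
      exact hwS u hu (by rw [h]; exact hv)
    have hww : ∀ u ∈ S, ∀ v ∈ S, u ≠ v → Cov G (w v) (w u) := by
      intro u hu v hv huv
      rcases hdom u hu v hv huv with h | h
      · rcases h (w u) (hwne u hu v hv) with h' | h'
        · exact absurd h' (hnuw u hu)
        · exact h'
      · rcases h (w v) (hwne v hv u hu) with h' | h'
        · exact absurd h' (hnuw v hv)
        · exact cov_symm G h'
    -- conclude
    obtain ⟨a, ha, b, hb, hab⟩ := one_lt_card.1 (show 1 < S.card by omega)
    have hfin : ∀ u ∈ S, ∀ v ∈ S, u ≠ v → (∀ z, z ≠ v → Cov G u z ∨ Cov G (w v) z) → False := by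
      intro u hu v hv huv h
      obtain ⟨z, hz1, hz2⟩ := H.two v (w v)
      have hzv : z ≠ v := fun h' => hz1 (Or.inl h')
      rcases h z hzv with h' | h'
      · rcases h' with h' | h'
        · rw [h'] at hz2
          exact hz2 (hw2 v hv u hu huv)
        · obtain ⟨t, ht, _, hwt⟩ := hNout u hu z h'
          by_cases htv : t = v
          · rw [← hwt, htv] at hz2
            exact hz2 (Or.inl rfl)
          · rw [← hwt] at hz2
            exact hz2 (hww t ht v hv htv)
      · exact hz2 h'
    rcases hdom a ha b hb hab with h | h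
    · exact hfin a ha b hb hab h
    · exact hfin b hb a ha hab.symm h
  · obtain ⟨p0, hp0⟩ := nonempty_iff_ne_empty.2 hPe
    have hQ1 : Q.card ≤ 1 := by
      by_contra hcon
      push Not at hcon
      have hall : P ⊆ V2 := by
        intro p hp
        by_contra hpV
        have := hPdeg p hp
        rw [erase_eq_of_notMem hpV] at this
        omega
      have h1 : V2.card ≤ 2 := by
        have := hPdeg p0 hp0
        have := pred_card_le_card_erase (s := V2) (a := p0)
        omega
      have h2 := card_le_card hall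
      omega
    intro s hs
    by_cases hsP : s ∈ P
    · obtain ⟨v, hvS, hvp, hwv, hcov, hncov⟩ := hPel s hsP
      refine ⟨v, hvS, hncov, ?_⟩
      intro t' ht' hst'
      by_contra hne
      exact hst' (hcov t' ht' hne)
    · -- s is the unique element of Q
      have hsQ : s ∈ Q := by rw [hQ, mem_sdiff]; exact ⟨hs, hsP⟩
      have hQs : ∀ t ∈ S, t ≠ s → t ∈ P := by
        intro t ht hts
        by_contra htP
        have htQ : t ∈ Q := by rw [hQ, mem_sdiff]; exact ⟨ht, htP⟩
        exact hts (card_le_one.1 hQ1 t htQ s hsQ)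
      have hun : ∀ t ∈ S, ¬ Cov G s t → t = w s := by
        intro t ht hst
        have hts : t ≠ s := fun h => hst (Or.inl h)
        obtain ⟨v, hvS, hvp, hwv, hcov, hncov⟩ := hPel t (hQs t ht hts)
        by_cases hvs : s = v
        · rw [← hwv, hvs]
        · exact absurd (cov_symm G (hcov s hs hvs)) hst
      obtain ⟨t, ht, hst⟩ := hnon s hs
      refine ⟨t, ht, hst, ?_⟩
      intro t' ht' hst'
      rw [hun t ht hst, hun t' ht' hst']

/-- Structure of the set of low degree vertices. -/
theorem core {r : ℕ} (hr4 : 4 ≤ r) (H : Hyp G) (hconn : G.Connected)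
    (hn : 2 * (r + 3) * (r + 1) + 2 ≤ Fintype.card V)
    (S : Finset V) (hS : ∀ s, s ∈ S ↔ G.degree s ≤ r) (hSc : r + 1 ≤ S.card) :
    S.card = r + 1 ∧
      ∀ s ∈ S, ∃ t ∈ S, ¬ Cov G s t ∧ ∀ t' ∈ S, ¬ Cov G s t' → t' = t := by
  classical
  have hSd : ∀ s ∈ S, G.degree s ≤ r := fun s hs => (hS s).1 hs
  have hle := card_le' G H hconn hn S hSd
  have hc : S.card = r + 1 := by omega
  refine ⟨hc, ?_⟩
  by_cases hall : ∀ u ∈ S, ∃ s ∈ S, ¬ Cov G u s
  · exact case_all G hr4 H hn S hSd hc hall
  · exfalso
    push Not at hall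
    obtain ⟨c, hcS, hcC⟩ := hall
    by_cases hU : ∃ u ∈ S, ∃ s ∈ S, ¬ Cov G u s
    · obtain ⟨u0, hu0, hu0U⟩ := hU
      exact case_mixed G H hn S hS hc c hcS hcC u0 hu0 hu0U
    · push Not at hU
      have huniv := closed_eq_univ G hconn (S := S) (by rw [← card_pos]; omega) (by
        intro s hs
        have hsub : S.erase s ⊆ G.neighborFinset s := by
          intro z hz
          rw [mem_erase] at hz
          rw [SimpleGraph.mem_neighborFinset]
          rcases hU s hs z hz.2 with h | h
          · exact absurd h hz.1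
          · exact h
        have heq : S.erase s = G.neighborFinset s := by
          apply eq_of_subset_of_card_le hsub
          rw [SimpleGraph.card_neighborFinset_eq_degree, card_erase_of_mem hs]
          have := hSd s hs
          omega
        rw [← heq]
        exact erase_subset _ _)
      have : S.card = Fintype.card V := by rw [huniv, card_univ]
      have h5 : 2 * (r + 3) * (r + 1) ≥ 2 * (r + 3) * 1 := Nat.mul_le_mul_left _ (by omega)
      omega

end Pool.Agent.Q216.EC
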