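import Pool.Agent.Q216.EC.Final

set_option autoImplicit false

/-!
Definitions (domination number, edge-critical graphs, number of low degree vertices), the passage
from edge-criticality to the combinatorial hypotheses, and the disconnected examples.
-/

namespace Pool.Agent.Q216.EC

open Finset

/-- `D` is a dominating set of `G`. -/
def Dominating {V : Type} (G : SimpleGraph V) (D : Finset V) : Prop :=
  ∀ v, v ∈ D ∨ ∃ d ∈ D, G.Adj d v

/-- The domination number `γ(G)`. -/
noncomputable def domNum {V : Type} (G : SimpleGraph V) : ℕ :=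
  sInf {k | ∃ D : Finset V, Dominating G D ∧ D.card = k}

/-- `G` is `k`-edge-critical. -/
def EdgeCritical {V : Type} (k : ℕ) (G : SimpleGraph V) : Prop :=
  domNum G = k ∧ ∀ u v, u ≠ v → ¬ G.Adj u v → domNum (G ⊔ SimpleGraph.edge u v) < k

/-- Degree of a vertex (number of neighbours). -/
noncomputable def deg {V : Type} (G : SimpleGraph V) (v : V) : ℕ := {z | G.Adj v z}.ncard

/-- `d_r(G)`: number of vertices of degree at most `r`. -/
noncomputable def lowCount {V : Type} (G : SimpleGraph V) (r : ℕ) : ℕ :=
  {v | deg G v ≤ r}.ncard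

theorem domNum_le {V : Type} {G : SimpleGraph V} {D : Finset V} (h : Dominating G D) :
    domNum G ≤ D.card := Nat.sInf_le ⟨D, h, rfl⟩

theorem domNum_spec {V : Type} [Fintype V] (G : SimpleGraph V) :
    ∃ D : Finset V, Dominating G D ∧ D.card = domNum G := by
  have h : ({k | ∃ D : Finset V, Dominating G D ∧ D.card = k} : Set ℕ).Nonempty :=
    ⟨_, univ, fun v => Or.inl (mem_univ v), rfl⟩
  exact Nat.sInf_mem h

theorem edge_case {V : Type} [DecidableEq V] {G : SimpleGraph V} {u v : V} {D : Finset V}
    (hD2 : D.card ≤ 2) (hD : Dominating (G ⊔ SimpleGraph.edge u v) D)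
    (hu : u ∈ D) (hv : v ∉ D) (hndom : ∀ d ∈ D, ¬ G.Adj d v) :
    ∃ w, ¬ Cov G w v ∧ ∀ z, z ≠ v → Cov G u z ∨ Cov G w z := by
  classical
  obtain ⟨w, hwD, hDw⟩ : ∃ w ∈ D, ∀ d ∈ D, d = u ∨ d = w := by
    by_cases h : D.erase u = ∅
    · refine ⟨u, hu, ?_⟩
      intro d hd
      by_contra hcon
      push Not at hcon
      have : d ∈ D.erase u := mem_erase.2 ⟨hcon.1, hd⟩
      rw [h] at this
      exact notMem_empty _ this
    · obtain ⟨w, hw⟩ := nonempty_iff_ne_empty.2 h
      refine ⟨w, mem_of_mem_erase hw, ?_⟩
      intro d hd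
      by_cases hdu : d = u
      · exact Or.inl hdu
      · right
        have h1 : (D.erase u).card ≤ 1 := by
          rw [card_erase_of_mem hu]; omega
        exact card_le_one.1 h1 d (mem_erase.2 ⟨hdu, hd⟩) w hw
  refine ⟨w, ?_, ?_⟩
  · rintro (h | h)
    · rw [h] at hv; exact hv hwD
    · exact hndom w hwD h
  · intro z hz
    rcases hD z with h | ⟨d, hd, hdz⟩
    · rcases hDw z h with h' | h'
      · exact Or.inl (Or.inl h')
      · exact Or.inr (Or.inl h')
    · rw [SimpleGraph.sup_adj, SimpleGraph.edge_adj] at hdz
      rcases hdz with h' | ⟨h' | h', _⟩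
      · rcases hDw d hd with h'' | h''
        · left; right; rw [← h'']; exact h'
        · right; right; rw [← h'']; exact h'
      · exact absurd h'.2 hz
      · exfalso; rw [h'.1] at hd; exact hv hd

theorem hyp_of_critical {V : Type} [Fintype V] {G : SimpleGraph V} (h : EdgeCritical 3 G) :
    Hyp G := by
  classical
  have hno : ∀ D : Finset V, D.card ≤ 2 → ¬ Dominating G D := by
    intro D hD hdom
    have := domNum_le hdom
    rw [h.1] at this
    omega
  refine ⟨?_, ?_⟩
  · intro a b
    have h1 := hno {a, b} card_le_two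
    unfold Dominating at h1
    push Not at h1
    obtain ⟨z, hz1, hz2⟩ := h1
    rw [mem_insert, mem_singleton, not_or] at hz1
    refine ⟨z, ?_, ?_⟩
    · rintro (h' | h')
      · exact hz1.1 h'
      · exact hz2 a (mem_insert_self _ _) h'
    · rintro (h' | h')
      · exact hz1.2 h'
      · exact hz2 b (mem_insert_of_mem (mem_singleton_self _)) h'
  · intro u v huv hadj
    have h2 := h.2 u v huv hadj
    obtain ⟨D, hD, hDc⟩ := domNum_spec (G ⊔ SimpleGraph.edge u v)
    have hD2 : D.card ≤ 2 := by omega
    have h3 := hno D hD2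
    unfold Dominating at h3
    push Not at h3
    obtain ⟨z, hzD, hz⟩ := h3
    rcases hD z with h4 | ⟨d, hd, hdz⟩
    · exact absurd h4 hzD
    · rw [SimpleGraph.sup_adj, SimpleGraph.edge_adj] at hdz
      rcases hdz with h5 | ⟨h5 | h5, _⟩
      · exact absurd h5 (hz d hd)
      · left
        rw [h5.1] at hd
        rw [h5.2] at hz hzD
        exact edge_case hD2 hD hd hzD hz
      · right
        rw [h5.1] at hd
        rw [h5.2] at hz hzD
        refine edge_case (u := v) (v := u) hD2 ?_ hd hzD hz
        rwa [SimpleGraph.edge_comm] 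

theorem deg_eq {V : Type} [Fintype V] [DecidableEq V] (G : SimpleGraph V) [DecidableRel G.Adj]
    (v : V) : deg G v = G.degree v := by
  unfold deg
  rw [← SimpleGraph.card_neighborFinset_eq_degree, ← Set.ncard_coe_finset]
  congr 1
  ext z
  simp

theorem structure_thm {r : ℕ} (hr4 : 4 ≤ r) {V : Type} [Fintype V] (G : SimpleGraph V)
    (hn : 2 * (r + 3) * (r + 1) + 2 ≤ Fintype.card V) (hconn : G.Connected)
    (h : EdgeCritical 3 G) (hlow : r < lowCount G r) :
    lowCount G r = r + 1 ∧ Odd r ∧
      ∀ s, deg G s ≤ r → ∃! t, deg G t ≤ r ∧ t ≠ s ∧ ¬ G.Adj s t := by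
  classical
  set S : Finset V := univ.filter (fun v => G.degree v ≤ r) with hS
  have hSmem : ∀ s, s ∈ S ↔ G.degree s ≤ r := by intro s; rw [hS, mem_filter]; simp
  have hlc : lowCount G r = S.card := by
    unfold lowCount
    rw [← Set.ncard_coe_finset]
    congr 1
    ext z
    simp [hS, deg_eq]
  have hc := core G hr4 (hyp_of_critical h) hconn hn S hSmem (by omega)
  refine ⟨by rw [hlc]; exact hc.1, ?_, ?_⟩
  · have he := even_of_unique G hc.2
    rw [hc.1] at he
    rcases Nat.even_or_odd r with h' | h'
    · exfalso
      obtain ⟨a, ha⟩ := he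
      obtain ⟨b, hb⟩ := h'
      omega
    · exact h'
  · intro s hs
    have hsS : s ∈ S := (hSmem s).2 (by rw [← deg_eq]; exact hs)
    obtain ⟨t, ht, hst, hun⟩ := hc.2 s hsS
    refine ⟨t, ⟨?_, ?_, ?_⟩, ?_⟩
    · rw [deg_eq]; exact (hSmem t).1 ht
    · exact fun h' => hst (Or.inl h')
    · exact fun h' => hst (Or.inr h')
    · rintro t' ⟨ht', hne, hadj⟩
      apply hun t' ((hSmem t').2 (by rw [← deg_eq]; exact ht'))
      rintro (h' | h')
      · exact hne h'
      · exact hadj h'

/-! ### The disconnected examples -/

/-- Adjacency of the disjoint union of `K_{r+1}` and the complete multipartite graph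
`K_{2,...,2}` with `t` parts. -/
def exAdj {r t : ℕ} : Fin (r + 1) ⊕ (Fin t × Bool) → Fin (r + 1) ⊕ (Fin t × Bool) → Prop
  | Sum.inl a, Sum.inl b => a ≠ b
  | Sum.inr p, Sum.inr q => p.1 ≠ q.1
  | _, _ => False

/-- Disjoint union of `K_{r+1}` and `K_{2,...,2}` with `t` parts. -/
def exG (r t : ℕ) : SimpleGraph (Fin (r + 1) ⊕ (Fin t × Bool)) where
  Adj := exAdj
  symm := by
    constructor
    rintro (a | p) (b | q) h
    · exact fun h' => h h'.symm
    · exact h
    · exact h
    · exact fun h' => h h'.symm
  loopless := by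
    constructor
    rintro (a | p) h
    · exact h rfl
    · exact h rfl

theorem ex_connected (r t : ℕ) (ht : 0 < t) : ¬ (exG r t).Connected := by
  intro hc
  have key : ∀ (u v : Fin (r + 1) ⊕ (Fin t × Bool)) (_ : (exG r t).Walk u v),
      u.isLeft = true → v.isLeft = true := by
    intro u v p
    induction p with
    | nil => exact id
    | @cons a b c h p ih =>
      intro hu
      apply ih
      rcases a with a | a
      · rcases b with b | b
        · rfl
        · exact absurd h (by simp [exG, exAdj])
      · simp at hu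
  obtain ⟨p⟩ := hc.preconnected (Sum.inl 0) (Sum.inr (⟨0, ht⟩, true))
  have := key _ _ p rfl
  simp at this

theorem ex_dom_lower (r t : ℕ) (ht : 0 < t) (D : Finset (Fin (r + 1) ⊕ (Fin t × Bool)))
    (hD : Dominating (exG r t) D) : 3 ≤ D.card := by
  classical
  -- a left element
  obtain ⟨a, ha⟩ : ∃ a, Sum.inl a ∈ D := by
    rcases hD (Sum.inl 0) with h | ⟨d, hd, hadj⟩
    · exact ⟨0, h⟩
    · rcases d with a | q
      · exact ⟨a, hd⟩
      · exact absurd hadj (by simp [exG, exAdj])
  -- a right element
  obtain ⟨p, hp⟩ : ∃ p, Sum.inr p ∈ D := by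
    rcases hD (Sum.inr (⟨0, ht⟩, true)) with h | ⟨d, hd, hadj⟩
    · exact ⟨_, h⟩
    · rcases d with a | q
      · exact absurd hadj (by simp [exG, exAdj])
      · exact ⟨q, hd⟩
  -- another right element
  obtain ⟨q, hq, hqp⟩ : ∃ q, Sum.inr q ∈ D ∧ q ≠ p := by
    rcases hD (Sum.inr (p.1, !p.2)) with h | ⟨d, hd, hadj⟩
    · refine ⟨_, h, ?_⟩
      intro h'
      have := congrArg Prod.snd h'
      simp at this
    · rcases d with a | q
      · exact absurd hadj (by simp [exG, exAdj])
      · refine ⟨q, hd, ?_⟩
        intro h'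
        rw [h'] at hadj
        exact hadj rfl
  have hsub : ({Sum.inl a, Sum.inr p, Sum.inr q} : Finset _) ⊆ D := by
    intro z hz
    simp only [mem_insert, mem_singleton] at hz
    rcases hz with h | h | h <;> rw [h] <;> assumption
  have h3 : ({Sum.inl a, Sum.inr p, Sum.inr q} : Finset (Fin (r + 1) ⊕ (Fin t × Bool))).card = 3 := by
    rw [card_insert_of_notMem, card_insert_of_notMem, card_singleton]
    · simp only [mem_singleton, Sum.inr.injEq]; exact fun h => hqp h.symm
    · simp
  rw [← h3]
  exact card_le_card hsub

theorem ex_critical (r t : ℕ) (ht : 0 < t) : EdgeCritical 3 (exG r t) := by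
  classical
  refine ⟨?_, ?_⟩
  · apply le_antisymm
    · have hdom : Dominating (exG r t)
          {Sum.inl 0, Sum.inr (⟨0, ht⟩, true), Sum.inr (⟨0, ht⟩, false)} := by
        rintro (a | ⟨i, b⟩)
        · by_cases h : a = 0
          · left; simp [h]
          · right; refine ⟨Sum.inl 0, by simp, ?_⟩
            exact fun h' => h h'.symm
        · by_cases h : i = ⟨0, ht⟩
          · left; cases b <;> simp [h]
          · right; refine ⟨Sum.inr (⟨0, ht⟩, true), by simp, ?_⟩
            exact fun h' => h h'.symm
      exact (domNum_le hdom).trans card_le_three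
    · obtain ⟨D, hD, hDc⟩ := domNum_spec (exG r t)
      rw [← hDc]
      exact ex_dom_lower r t ht D hD
  · intro u v huv hadj
    -- it suffices to find a dominating pair
    have hpair : ∀ x y, Dominating (exG r t ⊔ SimpleGraph.edge u v) {x, y} →
        domNum (exG r t ⊔ SimpleGraph.edge u v) < 3 := by
      intro x y h
      have := (domNum_le h).trans card_le_two
      omega
    have hcross : ∀ (a : Fin (r + 1)) (i : Fin t) (b : Bool) (H : SimpleGraph _),
        exG r t ≤ H → H.Adj (Sum.inl a) (Sum.inr (i, b)) →
        Dominating H {Sum.inl a, Sum.inr (i, !b)} := by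
      intro a i b H hle hH
      rintro (a' | ⟨j, b'⟩)
      · by_cases h : a' = a
        · left; simp [h]
        · right
          refine ⟨Sum.inl a, by simp, hle ?_⟩
          exact fun h' => h h'.symm
      · by_cases h : j = i
        · by_cases hb : b' = b
          · right
            refine ⟨Sum.inl a, by simp, ?_⟩
            rw [h, hb]; exact hH
          · left
            have : b' = !b := by cases b <;> cases b' <;> simp_all
            simp [h, this]
        · right
          refine ⟨Sum.inr (i, !b), by simp, hle ?_⟩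
          exact fun h' => h h'.symm
    rcases u with a | ⟨i, b⟩
    · rcases v with a' | ⟨j, c⟩
      · exfalso
        apply hadj
        exact fun h => huv (by rw [h])
      · apply hpair _ _ (hcross a j c _ le_sup_left ?_)
        rw [SimpleGraph.sup_adj, SimpleGraph.edge_adj]
        right; exact ⟨Or.inl ⟨rfl, rfl⟩, by simp⟩
    · rcases v with a' | ⟨j, c⟩
      · apply hpair _ _ (hcross a' i b _ le_sup_left ?_)
        rw [SimpleGraph.sup_adj, SimpleGraph.edge_adj]
        right; exact ⟨Or.inr ⟨rfl, rfl⟩, by simp⟩
      · -- same part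
        have hij : i = j := by
          by_contra h
          exact hadj h
        have hbc : c = !b := by
          have : b ≠ c := by
            intro h
            exact huv (by rw [hij, h])
          cases b <;> cases c <;> simp_all
        subst hij
        subst hbc
        apply hpair (Sum.inl 0) (Sum.inr (i, b))
        rintro (a' | ⟨j, b'⟩)
        · by_cases h : a' = 0
          · left; simp [h]
          · right
            refine ⟨Sum.inl 0, by simp, ?_⟩
            rw [SimpleGraph.sup_adj]; left
            exact fun h' => h h'.symm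
        · by_cases h : j = i
          · by_cases hb : b' = b
            · left; simp [h, hb]
            · right
              refine ⟨Sum.inr (i, b), by simp, ?_⟩
              have : b' = !b := by cases b <;> cases b' <;> simp_all
              rw [SimpleGraph.sup_adj, SimpleGraph.edge_adj]
              right
              rw [h, this]
              exact ⟨Or.inl ⟨rfl, rfl⟩, by simp⟩
          · right
            refine ⟨Sum.inr (i, b), by simp, ?_⟩
            rw [SimpleGraph.sup_adj]; left
            exact fun h' => h h'.symm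

theorem ex_low (r t : ℕ) (ht : r + 2 ≤ t) : lowCount (exG r t) r = r + 1 := by
  classical
  have h1 : ∀ a : Fin (r + 1), deg (exG r t) (Sum.inl a) = r := by
    intro a
    unfold deg
    have : {z | (exG r t).Adj (Sum.inl a) z} = Sum.inl '' ({a}ᶜ : Set (Fin (r + 1))) := by
      ext z
      rcases z with b | q
      · simp only [Set.mem_setOf_eq, Set.mem_image, Set.mem_compl_iff, Set.mem_singleton_iff,
          Sum.inl.injEq, exists_eq_right]
        exact ⟨fun h h' => h h'.symm, fun h h' => h h'.symm⟩
      · simp [exG, exAdj]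
    rw [this, Set.ncard_image_of_injective _ Sum.inl_injective, Set.ncard_compl,
      Set.ncard_singleton, Nat.card_fin]
    omega
  have h2 : ∀ p : Fin t × Bool, r < deg (exG r t) (Sum.inr p) := by
    intro p
    unfold deg
    have hsub : (fun j : Fin t => (Sum.inr (j, true) : Fin (r + 1) ⊕ (Fin t × Bool))) ''
        ({p.1}ᶜ : Set (Fin t)) ⊆ {z | (exG r t).Adj (Sum.inr p) z} := by
      rintro z ⟨j, hj, rfl⟩
      exact fun h => hj h.symm
    have hc := Set.ncard_le_ncard hsub (Set.toFinite _)
    rw [Set.ncard_image_of_injective, Set.ncard_compl, Set.ncard_singleton, Nat.card_fin] at hc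
    · omega
    · intro i j hij
      simpa using hij
  unfold lowCount
  have : {v | deg (exG r t) v ≤ r} = Set.range (Sum.inl : Fin (r + 1) → _) := by
    ext z
    rcases z with a | p
    · simp [h1]
    · simp only [Set.mem_setOf_eq, Set.mem_range, reduceCtorEq, exists_false, iff_false, not_le]
      exact h2 p
  rw [this, ← Set.image_univ, Set.ncard_image_of_injective _ Sum.inl_injective, Set.ncard_univ,
    Nat.card_fin]

end Pool.Agent.Q216.EC
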