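import Pool.Agent.Q216.EC.Core

set_option autoImplicit false

/-!
Low degree vertices of connected 3-edge-critical graphs (domination): main argument.
-/

namespace Pool.Agent.Q216.EC

open Finset

variable {V : Type*} [Fintype V] [DecidableEq V] (G : SimpleGraph V) [DecidableRel G.Adj]

/-- A large low degree set: every element has a non-neighbour in it. -/
theorem nonnb_of_big {r : ℕ} {S : Finset V} (hS : ∀ s ∈ S, G.degree s ≤ r)
    (hc : r + 2 ≤ S.card) : ∀ u ∈ S, ∃ s ∈ S, ¬ Cov G u s := by
  classical
  intro u hu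
  by_contra h
  push Not at h
  have hsub : S.erase u ⊆ G.neighborFinset u := by
    intro z hz
    rw [mem_erase] at hz
    rw [SimpleGraph.mem_neighborFinset]
    rcases h z hz.2 with h' | h'
    · exact absurd h' hz.1
    · exact h'
  have := card_le_card hsub
  rw [card_erase_of_mem hu, SimpleGraph.card_neighborFinset_eq_degree] at this
  have := hS u hu
  omega

theorem card_image_erase {S : Finset V} {w : V → V} (hinj : Set.InjOn w (S : Set V)) {s : V}
    (hs : s ∈ S) : ((S.erase s).image w).card = S.card - 1 := by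
  classical
  rw [card_image_of_injOn (hinj.mono (by
    intro z hz; exact mem_of_mem_erase (by exact_mod_cast hz))), card_erase_of_mem hs]

/-- `|S| = r + 2` forces a component. -/
theorem card_le' {r : ℕ} (H : Hyp G) (hconn : G.Connected)
    (hn : 2 * (r + 3) * (r + 1) + 2 ≤ Fintype.card V)
    (S : Finset V) (hS : ∀ s ∈ S, G.degree s ≤ r) : S.card ≤ r + 1 := by
  classical
  by_contra hcon
  push Not at hcon
  have hle := card_le G H hn S hS
  have hSc : S.card = r + 2 := by omega
  obtain ⟨X, hX2, hX1, hXB⟩ := exX G H S hS (by omega) hn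
  obtain ⟨x, hx⟩ : X.Nonempty := by rw [← card_pos]; omega
  have hnon := nonnb_of_big G hS hSc.ge
  obtain ⟨w, hw1, hw2, hinj⟩ := partners G (S := S) (x := x) (fun s hs => hX1 x hx s hs)
    (fun u hu => hXB x hx u hu (hnon u hu))
  -- each neighbourhood is contained in the image of `w`
  have hNb : ∀ s ∈ S, s ∈ S.image w ∧ G.neighborFinset s ⊆ S.image w := by
    intro s hs
    have h1 := image_sub G hw2 s hs
    have h3 := card_image_erase hinj hs
    have hd := hS s hs
    have hmem : s ∈ (S.erase s).image w := by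
      by_contra hns
      rw [erase_eq_of_notMem hns] at h1
      have := card_le_card h1
      rw [SimpleGraph.card_neighborFinset_eq_degree] at this
      omega
    have hsubim : (S.erase s).image w ⊆ S.image w := image_subset_image (erase_subset _ _)
    refine ⟨hsubim hmem, ?_⟩
    have heq : ((S.erase s).image w).erase s = G.neighborFinset s := by
      apply eq_of_subset_of_card_le h1
      rw [SimpleGraph.card_neighborFinset_eq_degree, card_erase_of_mem hmem]
      omega
    rw [← heq]
    exact (erase_subset _ _).trans hsubim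
  have hSI : S ⊆ S.image w := fun s hs => (hNb s hs).1
  have hSI' : S = S.image w := eq_of_subset_of_card_le hSI card_image_le
  have huniv := closed_eq_univ G hconn (S := S) (by rw [← card_pos]; omega)
    (fun s hs => by rw [hSI']; exact (hNb s hs).2)
  have : S.card = Fintype.card V := by rw [huniv, card_univ]
  have h5 : 2 * (r + 3) * (r + 1) ≥ 2 * (r + 3) * 1 := Nat.mul_le_mul_left _ (by omega)
  omega

/-- Case `C ≠ ∅`, `U ≠ ∅`. -/
theorem case_mixed {r : ℕ} (H : Hyp G)
    (hn : 2 * (r + 3) * (r + 1) + 2 ≤ Fintype.card V)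
    (S : Finset V) (hS : ∀ s, s ∈ S ↔ G.degree s ≤ r) (hSc : S.card = r + 1)
    (c : V) (hc : c ∈ S) (hcC : ∀ s ∈ S, Cov G c s)
    (u0 : V) (hu0 : u0 ∈ S) (hu0U : ∃ s ∈ S, ¬ Cov G u0 s) : False := by
  classical
  have hSd : ∀ s ∈ S, G.degree s ≤ r := fun s hs => (hS s).1 hs
  obtain ⟨X, hX2, hX1, hXB⟩ := exX G H S hSd (by omega) hn
  obtain ⟨x, hx, x', hx', hxx'⟩ : ∃ x ∈ X, ∃ x' ∈ X, x ≠ x' := one_lt_card.1 (by omega)
  set U : Finset V := S.filter (fun u => ∃ s ∈ S, ¬ Cov G u s) with hU
  have hUmem : ∀ u, u ∈ U ↔ u ∈ S ∧ ∃ s ∈ S, ¬ Cov G u s := by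
    intro u; rw [hU, mem_filter]
  -- neighbourhood of c
  have hNc : ∀ d ∈ S, (∀ s ∈ S, Cov G d s) → G.neighborFinset d = S.erase d := by
    intro d hd hdC
    symm
    apply eq_of_subset_of_card_le
    · intro z hz
      rw [mem_erase] at hz
      rw [SimpleGraph.mem_neighborFinset]
      rcases hdC z hz.2 with h | h
      · exact absurd h hz.1
      · exact h
    · rw [SimpleGraph.card_neighborFinset_eq_degree, card_erase_of_mem hd]
      have := hSd d hd
      omega
  have hCout : ∀ d ∈ S, (∀ s ∈ S, Cov G d s) → ∀ z, Cov G d z → z ∈ S := by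
    intro d hd hdC z hz
    rcases hz with h | h
    · rw [h]; exact hd
    · have : z ∈ G.neighborFinset d := (SimpleGraph.mem_neighborFinset _ _ _).2 h
      rw [hNc d hd hdC] at this
      exact mem_of_mem_erase this
  -- properties of a partner
  have hpart : ∀ y, (∀ s ∈ S, ¬ Cov G s y) → ∀ u ∈ U, ∀ w, ¬ Cov G w u →
      (∀ z, z ≠ u → Cov G y z ∨ Cov G w z) → w ∈ U ∧ (∀ s ∈ S, s ≠ u → Cov G w s) := by
    intro y hy u hu w hw1 hw2
    rw [hUmem] at hu
    have h2 : ∀ s ∈ S, s ≠ u → Cov G w s := by
      intro s hs hsu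
      rcases hw2 s hsu with h | h
      · exact absurd (cov_symm G h) (hy s hs)
      · exact h
    have hcu : c ≠ u := by
      intro h
      obtain ⟨s, hs, hus⟩ := hu.2
      rw [← h] at hus
      exact hus (hcC s hs)
    have hwS : w ∈ S := hCout c hc hcC w (cov_symm G (h2 c hc hcu))
    refine ⟨?_, h2⟩
    rw [hUmem]
    exact ⟨hwS, u, hu.1, hw1⟩
  -- choose partners from x
  have hTB : ∀ u ∈ U, TB G u x := fun u hu => hXB x hx u ((hUmem u).1 hu).1 ((hUmem u).1 hu).2
  choose! w hw1 hw2 using hTB
  have hxS : ∀ s ∈ S, ¬ Cov G s x := fun s hs => hX1 x hx s hs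
  have hwU : ∀ u ∈ U, w u ∈ U := fun u hu => (hpart x hxS u hu (w u) (hw1 u hu) (hw2 u hu)).1
  have hwS : ∀ u ∈ U, ∀ s ∈ S, s ≠ u → Cov G (w u) s :=
    fun u hu => (hpart x hxS u hu (w u) (hw1 u hu) (hw2 u hu)).2
  have hinj : Set.InjOn w (U : Set V) := by
    intro u hu v hv huv
    by_contra hne
    have := hwS v hv u ((hUmem u).1 hu).1 hne
    rw [← huv] at this
    exact hw1 u hu this
  have hsurj : ∀ s ∈ U, ∃ u ∈ U, w u = s := by
    intro s hs
    have := surj_on_of_inj_on_of_card_le (s := U) (t := U) (fun a _ => w a) hwU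
      (fun a b ha hb hab => hinj ha hb hab) le_rfl s hs
    obtain ⟨a, ha, hab⟩ := this
    exact ⟨a, ha, hab.symm⟩
  -- the exceptional vertex
  obtain ⟨y, hcy, hxy⟩ := H.two c x
  have hyS : y ∉ S := fun h => hcy (hcC y h)
  have hyU : ∀ s ∈ U, G.Adj s y := by
    intro s hs
    obtain ⟨u, hu, hus⟩ := hsurj s hs
    have hyu : y ≠ u := by
      intro h; rw [h] at hyS; exact hyS ((hUmem u).1 hu).1
    rcases hw2 u hu y hyu with h | h
    · exact absurd h hxy
    · rw [hus] at h
      rcases h with h | h
      · exfalso; rw [h] at hyS; exact hyS ((hUmem s).1 hs).1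
      · exact h
  -- neighbourhoods of the elements of U
  have hNU : ∀ s ∈ U, ∀ z, G.Adj s z → z ∈ S ∨ z = y := by
    intro s hs z hz
    by_contra hcon
    push Not at hcon
    obtain ⟨u, hu, hus⟩ := hsurj s hs
    have huS := ((hUmem u).1 hu).1
    have hsS := ((hUmem s).1 hs).1
    have hsu : s ≠ u := by
      intro h
      have := hw1 u hu
      rw [hus, h] at this
      exact this (Or.inl rfl)
    have hsub : insert z (insert y ((S.erase s).erase u)) ⊆ G.neighborFinset s := by
      intro t ht
      rw [SimpleGraph.mem_neighborFinset]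
      rw [mem_insert, mem_insert, mem_erase, mem_erase] at ht
      rcases ht with ht | ht | ht
      · rw [ht]; exact hz
      · rw [ht]; exact hyU s hs
      · have := hwS u hu t ht.2.2 ht.1
        rw [hus] at this
        rcases this with h | h
        · exact absurd h ht.2.1
        · exact h
    have hcard := card_le_card hsub
    rw [card_insert_of_notMem, card_insert_of_notMem, card_erase_of_mem, card_erase_of_mem,
      SimpleGraph.card_neighborFinset_eq_degree] at hcard
    · have h1 := hSd s hsS
      have h2 : 2 ≤ S.card := by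
        have : ({s, u} : Finset V) ⊆ S := by
          intro t ht
          rw [mem_insert, mem_singleton] at ht
          rcases ht with h | h <;> rw [h] <;> assumption
        have h3 := card_le_card this
        rw [card_pair hsu] at h3
        exact h3
      omega
    · exact hsS
    · rw [mem_erase]; exact ⟨fun h => hsu h.symm, huS⟩
    · intro h
      exact hyS (mem_of_mem_erase (mem_of_mem_erase h))
    · rw [mem_insert]
      rintro (h | h)
      · exact hcon.2 h
      · exact hcon.1 (mem_of_mem_erase (mem_of_mem_erase h))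
  -- closed neighbourhoods
  have hcovS : ∀ s ∈ S, ∀ z, z ∉ S → Cov G s z → z = y := by
    intro s hs z hz hsz
    by_cases hsU : s ∈ U
    · rcases hsz with h | h
      · exfalso; rw [h] at hz; exact hz hs
      · rcases hNU s hsU z h with h' | h'
        · exact absurd h' hz
        · exact h'
    · exfalso
      rw [hUmem] at hsU
      push Not at hsU
      exact hz (hCout s hs (hsU hs) z hsz)
  have hu0' : u0 ∈ U := (hUmem u0).2 ⟨hu0, hu0U⟩
  -- x and x' are not adjacent to y
  have hTBy : ∀ z, z ∉ S → z ≠ y → TB G u0 z → ¬ G.Adj y z := by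
    intro z hzS hzy hTB hadj
    obtain ⟨w', hw'1, hw'2⟩ := hTB
    have hzS' : ∀ s ∈ S, ¬ Cov G s z := fun s hs h => hzy (hcovS s hs z hzS h)
    obtain ⟨z1, hcz1, hzz1⟩ := H.two c z
    have hz1S : z1 ∉ S := fun h => hcz1 (hcC z1 h)
    have hp := hpart z hzS' u0 hu0' w' hw'1 hw'2
    have hz1u : z1 ≠ u0 := by intro h; rw [h] at hz1S; exact hz1S hu0
    rcases hw'2 z1 hz1u with h | h
    · exact hzz1 h
    · have := hcovS w' ((hUmem w').1 hp.1).1 z1 hz1S h
      rw [this] at hzz1
      exact hzz1 (Or.inr hadj.symm)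
  have hXy : ∀ z ∈ X, z ∉ S ∧ z ≠ y ∧ ¬ G.Adj y z := by
    intro z hz
    have h1 : z ∉ S := fun h => hX1 z hz z h (Or.inl rfl)
    have h2 : z ≠ y := by
      intro h
      exact hX1 z hz u0 hu0 (Or.inr (by rw [h]; exact hyU u0 hu0'))
    exact ⟨h1, h2, hTBy z h1 h2 (hXB z hz u0 hu0 hu0U)⟩
  have hNy : ∀ z, G.Adj y z → z ∈ U := by
    intro z hz
    by_cases hzS : z ∈ S
    · rw [hUmem]
      refine ⟨hzS, ?_⟩
      by_contra hcon
      push Not at hcon
      exact hyS (hCout z hzS hcon y (Or.inr hz.symm))
    · exfalso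
      have hzy : z ≠ y := fun h => by rw [h] at hz; exact G.loopless.irrefl _ hz
      have hzS' : ∀ s ∈ S, ¬ Cov G s z := fun s hs h => hzy (hcovS s hs z hzS h)
      have hu0z : u0 ≠ z := fun h => by rw [h] at hu0; exact hzS hu0
      rcases H.crit u0 z hu0z (fun h => hzS' u0 hu0 (Or.inr h)) with hA | hB
      · obtain ⟨w', hw'1, hw'2⟩ := hA
        -- a generic vertex different from z
        obtain ⟨x1, hx1, hx1z⟩ : ∃ x1 ∈ X, x1 ≠ z := by
          by_cases h : x = z
          · exact ⟨x', hx', fun h' => hxx' (h.trans h'.symm)⟩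
          · exact ⟨x, hx, h⟩
        have hx1' := hXy x1 hx1
        obtain ⟨s, hs, hus⟩ := hu0U
        have hsz : s ≠ z := fun h => by rw [h] at hs; exact hzS hs
        have hw's : Cov G w' s := by
          rcases hw'2 s hsz with h | h
          · exact absurd h hus
          · exact h
        have hw'x : Cov G w' x1 := by
          rcases hw'2 x1 hx1z with h | h
          · exact absurd h (hX1 x1 hx1 u0 hu0)
          · exact h
        have hw'S : w' ∉ S := fun h => hX1 x1 hx1 w' h hw'x
        have hw'y : w' = y := hcovS s hs w' hw'S (cov_symm G hw's)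
        rw [hw'y] at hw'x
        rcases hw'x with h | h
        · exact hx1'.2.1 h
        · exact hx1'.2.2 h
      · exact hTBy z hzS hzy hB hz
  apply hyS
  rw [hS]
  have hsub : G.neighborFinset y ⊆ S.erase c := by
    intro z hz
    rw [SimpleGraph.mem_neighborFinset] at hz
    have hzU := hNy z hz
    rw [mem_erase]
    refine ⟨?_, ((hUmem z).1 hzU).1⟩
    intro h
    rw [h] at hzU
    obtain ⟨s, hs, hcs⟩ := ((hUmem c).1 hzU).2
    exact hcs (hcC s hs)
  have := card_le_card hsub
  rw [card_erase_of_mem hc, SimpleGraph.card_neighborFinset_eq_degree] at this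
  omega

end Pool.Agent.Q216.EC
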